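import Pool.Agent.Run7.h704.PG.D

/-!
# The nondeterminism hierarchy of propagating programmed grammars is strict (MP_67c3d0_lc, Q2)

For every `n ≥ 1` the language of the nonempty words over `n` letters which end with the first
letter has a propagating programmed grammar with overall nondeterminism `n + 1`, and every
programmed grammar that generates it, with or without erasing rules, has overall nondeterminism at
least `n + 1`. Hence `OND(P^{-ε}, n)` is a proper subfamily of `OND(P^{-ε}, n + 1)` for all `n ≥ 1`.

Proof of the lower bound: the numbers of the occurrences of the symbols in the last sentential form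
are an affine function of the numbers of uses of the `ond(G)` transitions at rules with at least two
successors, for all derivations with the same first and last label and the same last such
transition (up to a correction for a final deterministic cycle). The number of nonterminals is zero
at the end, but not before the end, which gives one more linear condition. So the letter counts of
the words of each of finitely many classes lie in a proper affine subspace if `ond(G) ≤ n`, and
finitely many such subspaces do not contain infinitely many points of the moment curve.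
-/

set_option autoImplicit false

namespace Pool.Agent.Results.MP_67c3d0_lc.StrictHierarchy

open Pool.Agent.Results.MP_67c3d0_lc.OneNDNormalForm Pool.Agent.Run7.h704.PG
open scoped Classical

/-- the overall nondeterminism of a programmed grammar: the sum of the numbers of successors of
the rules with at least two successors -/
noncomputable def ond {T : Type} (G : PG T) : ℕ :=
  ∑ r ∈ Finset.univ.filter (fun r => 2 ≤ (G.succ r).card), (G.succ r).card

/-- the family `OND(P^{-ε}, n)`, restricted to the languages over the alphabet `T` -/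
def OND (T : Type) (n : ℕ) : Set (Language T) :=
  {L | ∃ G : PG T, G.Propagating ∧ G.lang = L ∧ ond G ≤ n}

theorem card_Ed_le {T : Type} (G : PG T) : (Ed G).card ≤ ond G := by
  have h : Ed G ⊆ (Finset.univ.filter (fun r => 2 ≤ (G.succ r).card)).biUnion
      (fun r => (G.succ r).image (Prod.mk r)) := by
    intro e he
    unfold Ed at he
    have he2 := (Finset.mem_filter.1 he).2
    rw [Finset.mem_biUnion]
    refine ⟨e.1, ?_, ?_⟩
    · exact Finset.mem_filter.2 ⟨Finset.mem_univ _, he2.1⟩
    · exact Finset.mem_image.2 ⟨e.2, he2.2, rfl⟩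
  refine (Finset.card_le_card h).trans (Finset.card_biUnion_le.trans ?_)
  exact Finset.sum_le_sum fun r _ => Finset.card_image_le

/-- the right-hand sides of the grammar for the upper bound -/
def grhs (m : ℕ) : Option (Option (Fin (m + 1))) → List (Unit ⊕ Fin (m + 1))
  | none => [.inl ()]
  | some none => [.inr 0]
  | some (some i) => [.inr i, .inl ()]

/-- its success fields -/
noncomputable def gsucc (m : ℕ) : Option (Option (Fin (m + 1))) →
    Finset (Option (Option (Fin (m + 1))))
  | none => Finset.univ.erase none
  | some _ => {none}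

/-- the grammar for the upper bound -/
noncomputable def gr (m : ℕ) : PG (Fin (m + 1)) where
  N := Unit
  Ψ := Option (Option (Fin (m + 1)))
  start := ()
  lhs := fun _ => ()
  rhs := grhs m
  succ := gsucc m

theorem gr_prop (m : ℕ) : (gr m).Propagating := by
  intro r
  change grhs m r ≠ []
  rcases r with _ | _ | i <;> simp [grhs]

theorem ond_gr (m : ℕ) : ond (gr m) ≤ m + 2 := by
  change ∑ r ∈ (Finset.univ : Finset (Option (Option (Fin (m + 1))))).filter
    (fun r => 2 ≤ (gsucc m r).card), (gsucc m r).card ≤ m + 2
  have h : (Finset.univ : Finset (Option (Option (Fin (m + 1))))).filter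
      (fun r => 2 ≤ (gsucc m r).card) ⊆ {none} := by
    intro r hr
    have h2 := (Finset.mem_filter.1 hr).2
    rw [Finset.mem_singleton]
    rcases r with _ | r
    · rfl
    · simp [gsucc] at h2
  refine (Finset.sum_le_sum_of_subset h).trans ?_
  rw [Finset.sum_singleton]
  change (Finset.univ.erase (none : Option (Option (Fin (m + 1))))).card ≤ m + 2
  rw [Finset.card_erase_of_mem (Finset.mem_univ _)]
  simp

/-- the steps of the grammar -/
def gStep (m : ℕ) (c d : List (Unit ⊕ Fin (m + 1)) × Option (Option (Fin (m + 1)))) : Prop :=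
  d.2 ∈ gsucc m c.2 ∧ ∃ u₁ u₂, c.1 = u₁ ++ .inl () :: u₂ ∧ d.1 = u₁ ++ grhs m c.2 ++ u₂

/-- its reachable configurations -/
def gReach (m : ℕ) (c : List (Unit ⊕ Fin (m + 1)) × Option (Option (Fin (m + 1)))) : Prop :=
  ∃ p, Relation.ReflTransGen (gStep m) ([.inl ()], p) c

theorem split1 {m : ℕ} {v : List (Fin (m + 1))} {u1 u2 : List (Unit ⊕ Fin (m + 1))}
    (h : v.map Sum.inr ++ [Sum.inl ()] = u1 ++ Sum.inl () :: u2) :
    u1 = v.map Sum.inr ∧ u2 = [] := by
  induction v generalizing u1 with
  | nil =>
    rcases u1 with _ | ⟨x, u1⟩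
    · simp only [List.map_nil, List.nil_append, List.cons.injEq] at h
      exact ⟨rfl, h.2.symm⟩
    · simp at h
  | cons a v ih =>
    rcases u1 with _ | ⟨x, u1⟩
    · simp at h
    · simp only [List.map_cons, List.cons_append, List.cons.injEq] at h
      obtain ⟨h1, h2⟩ := ih h.2
      exact ⟨by rw [h1, ← h.1]; rfl, h2⟩

theorem ginv (m : ℕ) (c : List (Unit ⊕ Fin (m + 1)) × Option (Option (Fin (m + 1))))
    (hc : gReach m c) :
    (∃ v : List (Fin (m + 1)), c.1 = v.map Sum.inr ++ [Sum.inl ()]) ∨
    (∃ v : List (Fin (m + 1)), c.1 = v.map Sum.inr ++ [Sum.inr 0]) := by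
  obtain ⟨p, hp⟩ := hc
  induction hp with
  | refl => exact Or.inl ⟨[], rfl⟩
  | @tail c d _ hs ih =>
    obtain ⟨_, u1, u2, h1, h2⟩ := hs
    rcases ih with ⟨v, hv⟩ | ⟨v, hv⟩
    · rw [hv] at h1
      obtain ⟨rfl, rfl⟩ := split1 h1
      rw [List.append_nil] at h2
      rcases hc2 : c.2 with _ | _ | i
      · left
        refine ⟨v, ?_⟩
        rw [h2, hc2]
        rfl
      · right
        refine ⟨v, ?_⟩
        rw [h2, hc2]
        rfl
      · left
        refine ⟨v ++ [i], ?_⟩
        rw [h2, hc2]
        simp [grhs]
    · exfalso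
      rw [hv] at h1
      have h3 : (Sum.inl () : Unit ⊕ Fin (m + 1)) ∈
          (v.map Sum.inr ++ [Sum.inr 0] : List (Unit ⊕ Fin (m + 1))) := by
        rw [h1]
        simp
      simp at h3

theorem greach (m : ℕ) (v : List (Fin (m + 1))) :
    gReach m (v.map Sum.inr ++ [Sum.inl ()], none) := by
  induction v using List.reverseRecOn with
  | nil => exact ⟨none, Relation.ReflTransGen.refl⟩
  | append_singleton v i ih =>
    obtain ⟨p, hp⟩ := ih
    have h1 : gStep m (v.map Sum.inr ++ [Sum.inl ()], none)
        (v.map Sum.inr ++ [Sum.inl ()], some (some i)) := by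
      refine ⟨?_, v.map Sum.inr, [], rfl, ?_⟩
      · simp [gsucc]
      · simp [grhs]
    have h2 : gStep m (v.map Sum.inr ++ [Sum.inl ()], some (some i))
        ((v ++ [i]).map Sum.inr ++ [Sum.inl ()], none) := by
      refine ⟨?_, v.map Sum.inr, [], rfl, ?_⟩
      · simp [gsucc]
      · simp [grhs]
    exact ⟨p, (hp.tail h1).tail h2⟩

theorem glang (m : ℕ) (w : List (Fin (m + 1))) :
    (∃ q, gReach m (w.map Sum.inr, q)) ↔ ∃ v, w = v ++ [0] := by
  constructor
  · rintro ⟨q, hq⟩
    rcases ginv m _ hq with ⟨v, hv⟩ | ⟨v, hv⟩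
    · exfalso
      have h1 : (Sum.inl () : Unit ⊕ Fin (m + 1)) ∈
          (w.map Sum.inr : List (Unit ⊕ Fin (m + 1))) := by
        rw [show (w.map Sum.inr : List (Unit ⊕ Fin (m + 1))) =
          v.map Sum.inr ++ [Sum.inl ()] from hv]
        simp
      simp at h1
    · refine ⟨v, ?_⟩
      apply List.map_injective_iff.2 (Sum.inr_injective (α := Unit) (β := Fin (m + 1)))
      rw [List.map_append]
      exact hv
  · rintro ⟨v, rfl⟩
    obtain ⟨p, hp⟩ := greach m v
    have h1 : gStep m (v.map Sum.inr ++ [Sum.inl ()], none)
        (v.map Sum.inr ++ [Sum.inl ()], some none) := by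
      refine ⟨?_, v.map Sum.inr, [], rfl, ?_⟩
      · simp [gsucc]
      · simp [grhs]
    have h2 : gStep m (v.map Sum.inr ++ [Sum.inl ()], some none)
        ((v ++ [0]).map Sum.inr, none) := by
      refine ⟨?_, v.map Sum.inr, [], rfl, ?_⟩
      · simp [gsucc]
      · simp [grhs]
    exact ⟨none, p, (hp.tail h1).tail h2⟩

theorem lang_gr (m : ℕ) : (gr m).lang = {w | ∃ v, w = v ++ [0]} := by
  ext w
  exact glang m w

/-- **The hierarchy is strict for propagating programmed grammars.** For every `n ≥ 1`, the family
`OND(P^{-ε}, n)` is contained in `OND(P^{-ε}, n + 1)` (for every alphabet), and there is a language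
`L` over an alphabet with `n` letters in `OND(P^{-ε}, n + 1)` which is not in `OND(P^{-ε}, n)`.
Moreover, every programmed grammar, propagating or not, over any terminal alphabet `T` that contains
the `n` letters, that generates `L` has overall nondeterminism at least `n + 1`. -/
theorem result (n : ℕ) (hn : 1 ≤ n) :
    (∀ T : Type, OND T n ⊆ OND T (n + 1)) ∧
    ∃ L : Language (Fin n), L ∈ OND (Fin n) (n + 1) ∧ L ∉ OND (Fin n) n ∧
      ∀ (T : Type) (a : Fin n → T), Function.Injective a → ∀ G : PG T,
        G.lang = {w | ∃ v ∈ L, w = v.map a} → n + 1 ≤ ond G := by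
  refine ⟨?_, ?_⟩
  · rintro T L ⟨G, h1, h2, h3⟩
    exact ⟨G, h1, h2, by omega⟩
  · obtain ⟨m, rfl⟩ : ∃ m, n = m + 1 := ⟨n - 1, by omega⟩
    have key : ∀ (T : Type) (a : Fin (m + 1) → T), Function.Injective a → ∀ G : PG T,
        G.lang = {w | ∃ v ∈ ({w | ∃ v, w = v ++ [0]} : Set (List (Fin (m + 1)))), w = v.map a} →
          m + 1 + 1 ≤ ond G := by
      intro T a ha G hG
      by_contra hlt
      refine lower a ha G ?_ ((card_Ed_le G).trans (by omega))
      rw [hG]
      ext w
      constructor
      · rintro ⟨_, ⟨v, rfl⟩, h⟩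
        exact ⟨v, h⟩
      · rintro ⟨v, h⟩
        exact ⟨_, ⟨v, rfl⟩, h⟩
    refine ⟨{w | ∃ v, w = v ++ [0]}, ⟨gr m, gr_prop m, lang_gr m, ond_gr m⟩, ?_, key⟩
    rintro ⟨G, _, h2, h3⟩
    have := key _ id Function.injective_id G (by
      rw [h2]
      ext w
      constructor
      · intro h
        exact ⟨w, h, by simp⟩
      · rintro ⟨v, hv, h⟩
        rw [List.map_id] at h
        rw [h]
        exact hv)
    omega

end Pool.Agent.Results.MP_67c3d0_lc.StrictHierarchy
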